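import Mathlib
import Pool.Agent.N236.RT.Stm

/-!
# Project RT (helper236): the first stage
-/

set_option autoImplicit false

namespace Pool.Agent.N678.RT.ST1

open MvPolynomial Module Pool.Agent.N236.RT

/-! ### Small facts -/

lemma Bd_iff {R : Type} [CommSemiring R] {A B : ℕ} {P : Pol R} :
    Bd A B P ↔ P.degreeOf 0 ≤ A ∧ P.degreeOf 1 ≤ B := by
  rw [degreeOf_le_iff, degreeOf_le_iff]
  exact ⟨fun h => ⟨fun m hm => (h m hm).1, fun m hm => (h m hm).2⟩,
    fun h m hm => ⟨h.1 m hm, h.2 m hm⟩⟩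

lemma Bd_dvd {A B : ℕ} {F P : Pol ℚ} (hP : P ≠ 0) (h : Bd A B P) (hd : F ∣ P) : Bd A B F := by
  obtain ⟨G, rfl⟩ := hd
  have hF : F ≠ 0 := left_ne_zero_of_mul hP
  have hG : G ≠ 0 := right_ne_zero_of_mul hP
  rw [Bd_iff, degreeOf_mul_eq hF hG, degreeOf_mul_eq hF hG] at h
  exact Bd_iff.2 ⟨by omega, by omega⟩

lemma Bd_map {A B : ℕ} {P : Pol ℤ} (h : Bd A B P) : Bd A B (map (algebraMap ℤ ℚ) P) :=
  fun m hm => h m (support_map_subset _ _ hm)

lemma Bd_expand {A B : ℕ} {P : Pol ℚ} (i : ℕ) (h : Bd A B P) : Bd (i * A) (i * B) (expand i P) := by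
  classical
  intro m hm
  have := support_expand_subset P hm
  rw [Finset.mem_image] at this
  obtain ⟨m', hm', rfl⟩ := this
  simp only [Finsupp.smul_apply, smul_eq_mul]
  exact ⟨Nat.mul_le_mul_left _ (h m' hm').1, Nat.mul_le_mul_left _ (h m' hm').2⟩

lemma ev_expand {K : Type} [Field K] [Algebra ℚ K] (u v : K) (i : ℕ) (P : Pol ℚ) :
    ev u v (expand i P) = ev (u ^ i) (v ^ i) P := by
  unfold ev
  rw [aeval_expand]
  congr 2
  funext j
  fin_cases j <;> simp

lemma ev_map {K : Type} [Field K] [Algebra ℚ K] (u v : K) (P : Pol ℤ) :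
    ev u v (map (algebraMap ℤ ℚ) P) = ev u v P := by
  unfold ev
  rw [aeval_map_algebraMap]

lemma ev_hom {K : Type} [Field K] [Algebra ℚ K] (σ : K →ₐ[ℚ] Qb) (u v : K) (P : Pol ℚ) :
    ev (σ u) (σ v) P = σ (ev u v P) := by
  unfold ev
  rw [comp_aeval_apply]
  congr 2
  funext j
  fin_cases j <;> simp

lemma D_zero (P : Pol ℤ) : D 0 0 P = P := by
  unfold D
  conv_rhs => rw [P.as_sum]
  refine Finset.sum_congr rfl fun m _ => ?_
  have : Finsupp.single 0 (m 0 - 0) + Finsupp.single 1 (m 1 - 0) = m := by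
    ext j
    fin_cases j <;> simp
  rw [this]
  simp

lemma VO_one {K : Type} [Field K] [Algebra ℤ K] {u v : K} {P : Pol ℤ} (h : VO 1 u v P) :
    ev u v P = 0 := by
  have := h 0 0 (by norm_num)
  rwa [D_zero] at this

lemma lam_nonneg {K : Type} [Field K] [NumberField K] (x : K) : 0 ≤ lam x :=
  Finset.sum_nonneg fun _ _ => Real.log_nonneg (le_max_left _ _)

lemma lam_pow {K : Type} [Field K] [NumberField K] (x : K) (n : ℕ) : lam (x ^ n) = n * lam x := by
  unfold lam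
  rw [Finset.mul_sum]
  refine Finset.sum_congr rfl fun σ _ => ?_
  rw [← Real.log_pow]
  congr 1
  rw [map_pow, norm_pow]
  rcases le_total ‖σ x‖ 1 with h | h
  · rw [max_eq_left h, one_pow, max_eq_left (pow_le_one₀ (norm_nonneg _) h)]
  · rw [max_eq_right h, max_eq_right (one_le_pow₀ h)]

/-- the number of points `(σ x ^ p, σ y ^ p)` -/
lemma card_points (hDIS : S_DIS) {K : Type} [Field K] [NumberField K] {x y : K} (hx : Unt x)
    (hxy : Ind x y) {J : Finset ℕ} (hJ : ∀ p ∈ J, p.Prime)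
    (hG : ∀ p ∈ J, Gen (x ^ p) (y ^ p)) : ∃ S : Finset (Qb × Qb),
    S.card = finrank ℚ K * J.card ∧
    ∀ s ∈ S, ∃ σ : K →ₐ[ℚ] Qb, ∃ p ∈ J, s = (σ (x ^ p), σ (y ^ p)) := by
  classical
  refine ⟨((Finset.univ : Finset (K →ₐ[ℚ] Qb)) ×ˢ J).image
    (fun z => (z.1 (x ^ z.2), z.1 (y ^ z.2))), ?_, ?_⟩
  · rw [Finset.card_image_of_injOn, Finset.card_product, Finset.card_univ, AlgHom.card ℚ K Qb]
    rintro ⟨σ, p⟩ h1 ⟨τ, p'⟩ h2 h
    simp only [Finset.coe_product, Set.mem_prod, Finset.mem_coe] at h1 h2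
    simp only [Prod.mk.injEq] at h
    have hroot : ∀ n : ℕ, 0 < n → x ^ n ≠ 1 := by
      intro n hn he
      have := hxy n 0 (by rw [zpow_natCast, he, zpow_zero, one_mul])
      omega
    have hpp : p = p' := hDIS K x hx hroot σ τ p p' (hJ p h1.2).pos (hJ p' h2.2).pos h.1
    subst hpp
    have : σ = τ := hG p h1.2 (Prod.ext h.1 h.2)
    rw [this]
  · intro s hs
    rw [Finset.mem_image] at hs
    obtain ⟨⟨σ, p⟩, h1, h2⟩ := hs
    rw [Finset.mem_product] at h1
    exact ⟨σ, p, h1.2, h2.symm⟩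

theorem t_st1 (hEX : S_EX) (hAUX : S_AUX) (hDIM : S_DIM1) (hBEZ : S_BEZ) (hTL : S_TL)
    (hDIS : S_DIS) (hSEL : S_SEL) : S_ST1 := by
  classical
  intro K _ _ x y T t L κ I J hx hy hxy _ hκ hκ2 ht htT hL hJne hI hJ hG hdim h1 h2 h3 h4 hcol
  have hN : 0 < (finrank ℚ K : ℝ) := by exact_mod_cast finrank_pos
  -- the auxiliary polynomial
  obtain ⟨W, hW1, hW2, hW3⟩ := hDIM K x y L L T
  obtain ⟨P, M, hP0, hPb, hPv, hM1, hPM, hlog⟩ := hAUX K x y hx.2.1 hy.2.1 L L T κ W hκ hκ2 hW1 hW2 (by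
    have h5 : (((L + 1) * (L + 1) : ℕ) : ℝ) ≤ ((W.card + finrank ℚ K * T ^ 2 : ℕ) : ℝ) := by
      exact_mod_cast hW3
    push_cast at h5
    nlinarith)
  have hlam : (L * lam x + L * lam y) / finrank ℚ K = L * (lam x + lam y) / finrank ℚ K := by
    rw [mul_add]
  rw [hlam] at hlog
  have hlx := lam_nonneg x
  have hly := lam_nonneg y
  have hLpos : (0 : ℝ) < (L : ℝ) + 1 := by positivity
  have hlogL : Real.log (((L : ℝ) + 1) ^ 2) = Real.log (((L : ℝ) + 1) * (L + 1)) := by rw [pow_two]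
  have hll : Real.log (2 * (L : ℝ) + 1) = Real.log (L + L + 1) := by rw [two_mul]
  -- extrapolation
  have hIne : I.Nonempty := by
    rw [Finset.nonempty_iff_ne_empty]
    rintro rfl
    simp only [Finset.card_empty, pow_zero] at h4
    have : 1 ≤ L ^ 3 := Nat.one_le_pow _ _ hL
    omega
  have hVt : ∀ i ∈ I, VO t (x ^ i) (y ^ i) P := by
    intro i hi
    refine hEX K x y hx.2.1 hy.2.1 P L L M T t i hPb hPM hM1 hPv (hI i hi) (by omega) htT ?_
    have h5 := h1 i hi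
    rw [hlogL, hll] at h5
    have e1 : (i : ℝ) * (L * lam x + L * lam y) / finrank ℚ K =
        i * L * (lam x + lam y) / finrank ℚ K := by ring
    rw [e1]
    linarith
  have hVV : ∀ i ∈ I, ∀ p ∈ J, ev ((x ^ p) ^ i) ((y ^ p) ^ i) P = 0 := by
    intro i hi p hp
    have h6 : VO 1 ((x ^ i) ^ p) ((y ^ i) ^ p) P := by
      refine hEX K (x ^ i) (y ^ i) (hx.2.1.pow i) (hy.2.1.pow i) P L L M t 1 p hPb hPM hM1 (hVt i hi)
        (hJ p hp) le_rfl (by omega) ?_
      have h5 := h2 i hi p hp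
      rw [hlogL, hll] at h5
      have e1 : (p : ℝ) * (L * lam (x ^ i) + L * lam (y ^ i)) / finrank ℚ K =
          p * i * L * (lam x + lam y) / finrank ℚ K := by
        rw [lam_pow, lam_pow]
        ring
      rw [e1]
      push_cast
      linarith
    have h7 := VO_one h6
    rwa [← pow_mul, ← pow_mul, mul_comm i p, pow_mul, pow_mul] at h7
  have hV1 : ∀ p ∈ J, ev (x ^ p) (y ^ p) P = 0 := by
    intro p hp
    obtain ⟨i, hi⟩ := hIne
    apply VO_one
    refine hEX K x y hx.2.1 hy.2.1 P L L M T 1 p hPb hPM hM1 hPv (hJ p hp) le_rfl (by omega) ?_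
    have h5 := h2 i hi p hp
    rw [hlogL, hll] at h5
    have hi1 : (1 : ℝ) ≤ i := by exact_mod_cast (hI i hi).one_le
    have hp1 : (1 : ℝ) ≤ p := by exact_mod_cast (hJ p hp).one_le
    have e1 : (p : ℝ) * (L * lam x + L * lam y) / finrank ℚ K ≤
        p * i * L * (lam x + lam y) / finrank ℚ K := by
      apply div_le_div_of_nonneg_right _ hN.le
      have : (0 : ℝ) ≤ p * (L * (lam x + lam y)) := by positivity
      nlinarith
    have e2 : ((t : ℝ) - 1) * Real.log p ≤ ((T : ℝ) - 1) * Real.log p := by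
      apply mul_le_mul_of_nonneg_right _ (Real.log_nonneg hp1)
      have : (t : ℝ) ≤ T := by exact_mod_cast htT
      linarith
    push_cast
    linarith
  -- the rational polynomial
  set PQ : Pol ℚ := map (algebraMap ℤ ℚ) P with hPQ
  have hPQ0 : PQ ≠ 0 := by
    intro h
    apply hP0
    have hinj : Function.Injective (map (σ := Fin 2) (algebraMap ℤ ℚ)) :=
      map_injective _ (algebraMap ℤ ℚ).injective_int
    apply hinj
    rw [map_zero]
    exact h
  have hPQb : Bd L L PQ := Bd_map hPb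
  obtain ⟨F, J', hF, hFP, hJJ, hJ'ne, hFJ, hcard⟩ := hSEL K x y PQ L L J hPQ0 hPQb hJne
    (fun p hp => by rw [hPQ, ev_map]; exact hV1 p hp)
  have hFb : Bd L L F := Bd_dvd hPQ0 hPQb hFP
  have hFd := Bd_iff.1 hFb
  obtain ⟨p₀, hp₀⟩ := hJ'ne
  have hFcol : ¬ Col F := hcol p₀ (hJJ hp₀) F hF.ne_zero hFb (hFJ p₀ hp₀)
  have hdiv : ∀ i ∈ I, i.Prime ∧ F ∣ expand i PQ := by
    intro i hi
    refine ⟨hI i hi, ?_⟩
    by_contra hnd
    have hrel : IsRelPrime F (expand i PQ) := (Irreducible.isRelPrime_iff_not_dvd hF).2 hnd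
    obtain ⟨S, hS1, hS2⟩ := card_points hDIS hx hxy (J := J') (fun p hp => hJ p (hJJ hp))
      (fun p hp => hG p (hJJ hp))
    have hb := hBEZ ℚ Qb F (expand i PQ) (F.degreeOf 0) (F.degreeOf 1) (i * L) (i * L) hrel
      (Bd_iff.2 ⟨le_rfl, le_rfl⟩) (Bd_expand i hPQb) S (by
        intro s hs
        obtain ⟨σ, p, hp, rfl⟩ := hS2 s hs
        refine ⟨?_, ?_⟩
        · rw [ev_hom, hFJ p hp, map_zero]
        · rw [ev_hom, ev_expand, hPQ, ev_map, hVV i hi p (hJJ hp), map_zero])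
    rw [hS1] at hb
    have hJ'pos : 0 < J'.card := Finset.card_pos.2 ⟨p₀, hp₀⟩
    have k1 : J.card * (finrank ℚ K * J'.card) ≤
        (J.card * (F.degreeOf 0 + F.degreeOf 1)) * (i * L) := by
      calc J.card * (finrank ℚ K * J'.card)
          ≤ J.card * (F.degreeOf 0 * (i * L) + i * L * F.degreeOf 1) := Nat.mul_le_mul_left _ hb
        _ = _ := by ring
    have k2 : (J.card * (F.degreeOf 0 + F.degreeOf 1)) * (i * L) ≤ J'.card * (2 * i * L ^ 2) := by
      calc (J.card * (F.degreeOf 0 + F.degreeOf 1)) * (i * L)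
          ≤ (J'.card * (L + L)) * (i * L) := Nat.mul_le_mul_right _ hcard
        _ = _ := by ring
    have k3 : J'.card * (2 * i * L ^ 2) < J'.card * (finrank ℚ K * J.card) :=
      Nat.mul_lt_mul_of_pos_left (h3 i hi) hJ'pos
    have k4 : J'.card * (finrank ℚ K * J.card) = J.card * (finrank ℚ K * J'.card) := by ring
    omega
  obtain ⟨i, hi, hi1, hi2⟩ := hTL F PQ I L L hF hFcol (by
    refine lt_of_le_of_lt ?_ h4
    calc 2 * F.degreeOf 0 * F.degreeOf 1 * (F.degreeOf 0 + F.degreeOf 1)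
        ≤ 2 * L * L * (L + L) := by
          gcongr
          · exact hFd.1
          · exact hFd.2
          · exact hFd.1
          · exact hFd.2
      _ = 4 * L ^ 3 := by ring) hPQ0 hPQb hdiv
  exact ⟨p₀, hJJ hp₀, F, hF, hFcol, hFJ p₀ hp₀, i, hi, hi1, hi2⟩

end Pool.Agent.N678.RT.ST1
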